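import Pool.Agent.W740.WC.SE

set_option autoImplicit false
set_option linter.unusedSectionVars false

open MeasureTheory Set Filter Topology

namespace Pool.Agent.W740.WC

variable {Γ : Type} [Group Γ] [Countable Γ]

/-- the two-piece measure -/
noncomputable def nu (Γ : Type) [Group Γ] [Countable Γ] (t : ℝ) : Measure (KK Γ × Bool) :=
  ENNReal.ofReal t • (hK Γ).map (fun x => (x, true)) +
    ENNReal.ofReal (1 - t) • (hK Γ).map (fun x => (x, false))

theorem meas_i (i : Bool) : Measurable (fun x : KK Γ => (x, i)) := measurable_id.prodMk measurable_const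

theorem nu_apply (t : ℝ) {B : Set (KK Γ × Bool)} (hB : MeasurableSet B) :
    nu Γ t B = ENNReal.ofReal t * hK Γ ((fun x => (x, true)) ⁻¹' B) +
      ENNReal.ofReal (1 - t) * hK Γ ((fun x => (x, false)) ⁻¹' B) := by
  rw [nu, Measure.add_apply, Measure.smul_apply, Measure.smul_apply,
    Measure.map_apply (meas_i true) hB, Measure.map_apply (meas_i false) hB]
  rfl

theorem nu_real {t : ℝ} (h0 : 0 ≤ t) (h1 : t ≤ 1) {B : Set (KK Γ × Bool)} (hB : MeasurableSet B) :
    (nu Γ t).real B = t * (hK Γ).real ((fun x => (x, true)) ⁻¹' B) +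
      (1 - t) * (hK Γ).real ((fun x => (x, false)) ⁻¹' B) := by
  rw [Measure.real, nu_apply t hB, ENNReal.toReal_add, ENNReal.toReal_mul, ENNReal.toReal_mul,
    ENNReal.toReal_ofReal h0, ENNReal.toReal_ofReal (by linarith)]
  · rfl
  · exact ENNReal.mul_ne_top ENNReal.ofReal_ne_top (measure_ne_top _ _)
  · exact ENNReal.mul_ne_top ENNReal.ofReal_ne_top (measure_ne_top _ _)

theorem nu_prob {t : ℝ} (h0 : 0 ≤ t) (h1 : t ≤ 1) : IsProbabilityMeasure (nu Γ t) := by
  refine ⟨?_⟩
  rw [nu_apply t MeasurableSet.univ, preimage_univ, preimage_univ, measure_univ, mul_one, mul_one,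
    ← ENNReal.ofReal_add h0 (by linarith)]
  simp

theorem nu_null {t : ℝ} (x : KK Γ × Bool) : nu Γ t {x} = 0 := by
  rw [nu_apply t (measurableSet_singleton x)]
  have h : ∀ i : Bool, hK Γ ((fun y => (y, i)) ⁻¹' {x}) = 0 := by
    intro i
    refine measure_mono_null ?_ (nullSingleton x.1)
    intro y hy
    have : (y, i) = x := hy
    rw [← this]
    rfl
  rw [h, h]
  simp

/-- the action -/
noncomputable def act0 (t : ℝ) : PmpAction Γ (KK Γ × Bool) (nu Γ t) where
  act g x := (sh g x.1, x.2)
  act_one x := by rw [sh_one]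
  act_mul g h x := by rw [sh_mul]
  mp g := by
    have hm : Measurable (fun x : KK Γ × Bool => (sh g x.1, x.2)) :=
      ((continuous_sh g).measurable.comp measurable_fst).prodMk measurable_snd
    refine ⟨hm, ?_⟩
    ext B hB
    rw [Measure.map_apply hm hB, nu_apply t (hm hB), nu_apply t hB]
    have h : ∀ i : Bool, hK Γ ((fun y => (y, i)) ⁻¹' ((fun x : KK Γ × Bool => (sh g x.1, x.2)) ⁻¹' B)) =
        hK Γ ((fun y => (y, i)) ⁻¹' B) := by
      intro i
      have : (fun y : KK Γ => (y, i)) ⁻¹' ((fun x : KK Γ × Bool => (sh g x.1, x.2)) ⁻¹' B) =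
          sh g ⁻¹' ((fun y => (y, i)) ⁻¹' B) := rfl
      rw [this, (mp_sh g).measure_preimage ((meas_i i) hB).nullMeasurableSet]
    rw [h, h]

theorem act0_free (t : ℝ) : IsFree (act0 t : PmpAction Γ (KK Γ × Bool) (nu Γ t)) := by
  intro g hg
  have hm : MeasurableSet {x : KK Γ × Bool | sh g x.1 = x.1} :=
    measurableSet_eq_fun ((continuous_sh g).measurable.comp measurable_fst) measurable_fst
  have h0 : nu Γ t {x : KK Γ × Bool | sh g x.1 = x.1} = 0 := by
    rw [nu_apply t hm]
    have h : ∀ i : Bool, hK Γ ((fun y => (y, i)) ⁻¹' {x : KK Γ × Bool | sh g x.1 = x.1}) = 0 := by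
      intro i
      have := sh_free g hg
      rw [ae_iff] at this
      refine measure_mono_null ?_ this
      intro y hy
      have hy' : sh g y = y := hy
      simpa using hy'
    rw [h, h]
    simp
  rw [ae_iff]
  refine measure_mono_null ?_ h0
  intro x hx
  have hx' : (act0 t : PmpAction Γ (KK Γ × Bool) (nu Γ t)).act g x = x := by simpa using hx
  exact congrArg Prod.fst hx'

/-- The spectral alternative: there is an invariant set of measure `t`, and each almost invariant
set has measure near one of four values. -/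
def Spec {X : Type} [MeasurableSpace X] {μ : Measure X} (t : ℝ) (a : PmpAction Γ X μ) : Prop :=
  (∃ A : Set X, MeasurableSet A ∧ μ.real A = t ∧ ∀ g, a.act g '' A = A) ∧
  ∃ (S : Finset Γ) (K : ℝ), 0 ≤ K ∧ ∀ B : Set X, MeasurableSet B →
    ∃ v : ℝ, (v = 0 ∨ v = t ∨ v = 1 - t ∨ v = 1) ∧
      |μ.real B - v| ≤ K * ∑ g ∈ S, (μ.real B - μ.real (a.act g '' B ∩ B))

theorem alt {p η : ℝ} (h0 : 0 ≤ p) (h1 : p ≤ 1) (h : p * (1 - p) ≤ η) : |p - 0| ≤ 2 * η ∨
    |p - 1| ≤ 2 * η := by
  rcases le_total p (1 / 2) with hp | hp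
  · left
    rw [sub_zero, abs_of_nonneg h0]
    nlinarith
  · right
    rw [abs_sub_comm, abs_of_nonneg (by linarith)]
    nlinarith

theorem act0_spec (hΓ : ¬ IsAmenable Γ) {t : ℝ} (h0 : 0 < t) (h1 : t < 1) :
    Spec t (act0 t : PmpAction Γ (KK Γ × Bool) (nu Γ t)) := by
  refine ⟨⟨Prod.snd ⁻¹' {true}, measurable_snd (measurableSet_singleton true), ?_, ?_⟩, ?_⟩
  · rw [nu_real h0.le h1.le (measurable_snd (measurableSet_singleton true))]
    have e1 : (fun x : KK Γ => (x, true)) ⁻¹' (Prod.snd ⁻¹' {true}) = univ := by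
      ext x; simp
    have e2 : (fun x : KK Γ => (x, false)) ⁻¹' (Prod.snd ⁻¹' {true}) = ∅ := by
      ext x; simp
    rw [e1, e2]
    simp
  · intro g
    ext x
    constructor
    · rintro ⟨y, hy, rfl⟩
      exact hy
    · intro hx
      refine ⟨(sh g⁻¹ x.1, x.2), hx, ?_⟩
      show (sh g (sh g⁻¹ x.1), x.2) = x
      rw [← sh_mul, mul_inv_cancel, sh_one]
  · obtain ⟨S, C, hC, hSE⟩ := strong_erg hΓ
    refine ⟨S, 2 * (C / t + C / (1 - t)), ?_, fun B hB => ?_⟩
    · have : 0 < 1 - t := by linarith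
      positivity
    have ht1 : 0 < 1 - t := by linarith
    set P : Bool → Set (KK Γ) := fun i => (fun x => (x, i)) ⁻¹' B with hP
    have hPm : ∀ i, MeasurableSet (P i) := fun i => meas_i i hB
    set D : Bool → ℝ := fun i => ∑ g ∈ S, ((hK Γ).real (P i) - (hK Γ).real (sh g '' P i ∩ P i))
      with hD
    have hD0 : ∀ i, 0 ≤ D i := fun i => Finset.sum_nonneg fun g _ => by
      have : (hK Γ).real (sh g '' P i ∩ P i) ≤ (hK Γ).real (P i) :=
        measureReal_mono inter_subset_right
      linarith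
    have hact : ∀ g, MeasurableSet ((act0 t : PmpAction Γ (KK Γ × Bool) (nu Γ t)).act g '' B) := by
      intro g
      have : (act0 t : PmpAction Γ (KK Γ × Bool) (nu Γ t)).act g '' B =
          (act0 t : PmpAction Γ (KK Γ × Bool) (nu Γ t)).act g⁻¹ ⁻¹' B := by
        ext x
        constructor
        · rintro ⟨y, hy, rfl⟩
          show (act0 t).act g⁻¹ ((act0 t).act g y) ∈ B
          rw [← PmpAction.act_mul, inv_mul_cancel, PmpAction.act_one]
          exact hy
        · intro hx
          exact ⟨(act0 t).act g⁻¹ x, hx, by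
            rw [← PmpAction.act_mul, mul_inv_cancel, PmpAction.act_one]⟩
      rw [this]
      exact ((act0 t).mp g⁻¹).measurable hB
    have hsum : ∑ g ∈ S, ((nu Γ t).real B - (nu Γ t).real ((act0 t).act g '' B ∩ B)) =
        t * D true + (1 - t) * D false := by
      rw [hD]
      simp only
      rw [Finset.mul_sum, Finset.mul_sum, ← Finset.sum_add_distrib]
      refine Finset.sum_congr rfl fun g _ => ?_
      rw [nu_real h0.le h1.le hB, nu_real h0.le h1.le ((hact g).inter hB)]
      have e : ∀ i : Bool, (fun x : KK Γ => (x, i)) ⁻¹' ((act0 t).act g '' B ∩ B) =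
          sh g '' P i ∩ P i := by
        intro i
        ext x
        constructor
        · rintro ⟨⟨y, hy, hyx⟩, hx⟩
          refine ⟨⟨y.1, ?_, congrArg Prod.fst hyx⟩, hx⟩
          have h2 : y.2 = i := congrArg Prod.snd hyx
          show (y.1, i) ∈ B
          rw [← h2]
          exact hy
        · rintro ⟨⟨y, hy, hyx⟩, hx⟩
          exact ⟨⟨(y, i), hy, by
            show (sh g y, i) = (x, i)
            rw [hyx]⟩, hx⟩
      rw [e, e]
      ring
    rw [hsum, nu_real h0.le h1.le hB]
    set Dt := t * D true + (1 - t) * D false with hDt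
    have hDt0 : 0 ≤ Dt := by
      have := hD0 true
      have := hD0 false
      positivity
    have hp : ∀ i, 0 ≤ (hK Γ).real (P i) ∧ (hK Γ).real (P i) ≤ 1 := fun i =>
      ⟨measureReal_nonneg, measureReal_le_one⟩
    have a1 : (hK Γ).real (P true) * (1 - (hK Γ).real (P true)) ≤ C / t * Dt := by
      refine (hSE _ (hPm true)).trans ?_
      have : D true ≤ Dt / t := by
        rw [le_div_iff₀ h0, hDt]
        nlinarith [hD0 true, hD0 false]
      calc C * D true ≤ C * (Dt / t) := mul_le_mul_of_nonneg_left this hC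
        _ = _ := by ring
    have a2 : (hK Γ).real (P false) * (1 - (hK Γ).real (P false)) ≤ C / (1 - t) * Dt := by
      refine (hSE _ (hPm false)).trans ?_
      have : D false ≤ Dt / (1 - t) := by
        rw [le_div_iff₀ ht1, hDt]
        nlinarith [hD0 true, hD0 false]
      calc C * D false ≤ C * (Dt / (1 - t)) := mul_le_mul_of_nonneg_left this hC
        _ = _ := by ring
    have b1 := alt (hp true).1 (hp true).2 a1
    have b2 := alt (hp false).1 (hp false).2 a2
    have key : ∀ u w : ℝ, |(hK Γ).real (P true) - u| ≤ 2 * (C / t * Dt) →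
        |(hK Γ).real (P false) - w| ≤ 2 * (C / (1 - t) * Dt) →
        |t * (hK Γ).real (P true) + (1 - t) * (hK Γ).real (P false) - (t * u + (1 - t) * w)| ≤
          2 * (C / t + C / (1 - t)) * Dt := by
      intro u w hu hw
      have e : t * (hK Γ).real (P true) + (1 - t) * (hK Γ).real (P false) - (t * u + (1 - t) * w) =
        t * ((hK Γ).real (P true) - u) + (1 - t) * ((hK Γ).real (P false) - w) := by ring
      rw [e]
      refine (abs_add_le _ _).trans ?_
      rw [abs_mul, abs_mul, abs_of_pos h0, abs_of_pos ht1]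
      have c1 : t * |(hK Γ).real (P true) - u| ≤ |(hK Γ).real (P true) - u| := by
        nlinarith [abs_nonneg ((hK Γ).real (P true) - u)]
      have c2 : (1 - t) * |(hK Γ).real (P false) - w| ≤ |(hK Γ).real (P false) - w| := by
        nlinarith [abs_nonneg ((hK Γ).real (P false) - w)]
      nlinarith
    rcases b1 with b1 | b1 <;> rcases b2 with b2 | b2
    · exact ⟨0, Or.inl rfl, by simpa using key 0 0 b1 b2⟩
    · exact ⟨1 - t, Or.inr (Or.inr (Or.inl rfl)), by simpa using key 0 1 b1 b2⟩
    · exact ⟨t, Or.inr (Or.inl rfl), by simpa using key 1 0 b1 b2⟩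
    · exact ⟨1, Or.inr (Or.inr (Or.inr rfl)), by simpa using key 1 1 b1 b2⟩

end Pool.Agent.W740.WC
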