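import Mathlib

set_option autoImplicit false

open MeasureTheory Set

namespace Pool.Agent.W740.WC

/-- Amenability of the discrete group `Γ`: there is a finitely additive probability measure,
defined on all subsets of `Γ`, which is invariant under left translations. -/
def IsAmenable (Γ : Type) [Group Γ] : Prop :=
  ∃ m : Set Γ → ℝ, m univ = 1 ∧ (∀ A, 0 ≤ m A) ∧
    (∀ A B, Disjoint A B → m (A ∪ B) = m A + m B) ∧
    ∀ (g : Γ) (A : Set Γ), m ((fun h => g * h) '' A) = m A

/-- A probability measure preserving action of `Γ` on `(X, μ)`. -/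
structure PmpAction (Γ : Type) [Group Γ] (X : Type) [MeasurableSpace X] (μ : Measure X) where
  /-- the action -/
  act : Γ → X → X
  act_one : ∀ x, act 1 x = x
  act_mul : ∀ g h x, act (g * h) x = act g (act h x)
  mp : ∀ g, MeasurePreserving (act g) μ μ

variable {Γ : Type} [Group Γ] {X : Type} [MeasurableSpace X] {μ : Measure X}

/-- The action is free: every nontrivial group element moves almost every point. -/
def IsFree (a : PmpAction Γ X μ) : Prop := ∀ g : Γ, g ≠ 1 → ∀ᵐ x ∂μ, a.act g x ≠ x

/-- Weak containment (in the sense of Kechris): `b ≼ a`. -/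
def WeaklyContained (b a : PmpAction Γ X μ) : Prop :=
  ∀ (F : Finset Γ) (ε : ℝ), 0 < ε → ∀ (n : ℕ) (A : Fin n → Set X), (∀ i, MeasurableSet (A i)) →
    ∃ B : Fin n → Set X, (∀ i, MeasurableSet (B i)) ∧ ∀ g ∈ F, ∀ i j,
      |μ.real (b.act g '' A i ∩ A j) - μ.real (a.act g '' B i ∩ B j)| < ε

/-- A set of free actions, any two distinct members of which are incomparable for weak
containment. -/
def IsFreeAntichain (S : Set (PmpAction Γ X μ)) : Prop :=
  (∀ a ∈ S, IsFree a) ∧ ∀ a ∈ S, ∀ b ∈ S, a ≠ b → ¬ WeaklyContained a b ∧ ¬ WeaklyContained b a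

/-- The width of the class of free actions: the supremum of the cardinalities of the antichains. -/
noncomputable def freeWidth (Γ : Type) [Group Γ] (X : Type) [MeasurableSpace X] (μ : Measure X) :
    Cardinal :=
  ⨆ S : {S : Set (PmpAction Γ X μ) // IsFreeAntichain S}, Cardinal.mk S.1

end Pool.Agent.W740.WC
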