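import Pool.Agent.W740.WC.Model

set_option autoImplicit false
set_option linter.unusedSectionVars false

open MeasureTheory Set Filter Topology
open scoped ComplexConjugate

namespace Pool.Agent.W740.WC

variable {Γ : Type} [Group Γ] [Countable Γ]

/-- translation of indices -/
noncomputable def tl (g : Γ) (n : Γ →₀ ℤ) : Γ →₀ ℤ := Finsupp.equivMapDomain (Equiv.mulLeft g) n

theorem tl_apply (g : Γ) (n : Γ →₀ ℤ) (h : Γ) : tl g n h = n (g⁻¹ * h) := rfl

theorem tl_mul (g h : Γ) (n : Γ →₀ ℤ) : tl (g * h) n = tl g (tl h n) := by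
  ext k
  simp [tl_apply, mul_assoc]

theorem tl_one (n : Γ →₀ ℤ) : tl 1 n = n := by
  ext k
  simp [tl_apply]

/-- translation as an equivalence -/
noncomputable def tlE (g : Γ) : (Γ →₀ ℤ) ≃ (Γ →₀ ℤ) where
  toFun := tl g
  invFun := tl g⁻¹
  left_inv n := by rw [← tl_mul, inv_mul_cancel, tl_one]
  right_inv n := by rw [← tl_mul, mul_inv_cancel, tl_one]

theorem mem_supp_tl (g : Γ) (n : Γ →₀ ℤ) (h : Γ) : h ∈ (tl g n).support ↔ g⁻¹ * h ∈ n.support := by
  rw [Finsupp.mem_support_iff, Finsupp.mem_support_iff, tl_apply]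

/-- proportion of the support in `A` -/
noncomputable def ph (A : Set Γ) (n : Γ →₀ ℤ) : ℝ :=
  (∑ h ∈ n.support, A.indicator (fun _ => (1 : ℝ)) h) / (n.support.card : ℝ)

theorem ind_nonneg (A : Set Γ) (h : Γ) : 0 ≤ A.indicator (fun _ => (1 : ℝ)) h :=
  indicator_nonneg (fun _ _ => zero_le_one) h

theorem ph_nonneg (A : Set Γ) (n : Γ →₀ ℤ) : 0 ≤ ph A n :=
  div_nonneg (Finset.sum_nonneg fun h _ => ind_nonneg A h) (by positivity)

theorem ph_le_one (A : Set Γ) (n : Γ →₀ ℤ) : ph A n ≤ 1 := by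
  unfold ph
  refine div_le_one_of_le₀ ?_ (by positivity)
  refine (Finset.sum_le_card_nsmul _ _ 1 fun h _ => ?_).trans (by simp)
  exact indicator_le_self' (fun _ _ => zero_le_one) h

theorem ph_univ {n : Γ →₀ ℤ} (hn : n ≠ 0) : ph univ n = 1 := by
  unfold ph
  have h : 0 < n.support.card := Finset.card_pos.mpr (Finsupp.support_nonempty_iff.mpr hn)
  simp only [indicator_univ, Finset.sum_const, nsmul_eq_mul, mul_one]
  rw [div_self]
  exact_mod_cast h.ne'

theorem ph_union {A B : Set Γ} (h : Disjoint A B) (n : Γ →₀ ℤ) : ph (A ∪ B) n = ph A n + ph B n := by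
  unfold ph
  rw [← add_div, ← Finset.sum_add_distrib]
  congr 1
  refine Finset.sum_congr rfl fun k _ => ?_
  rw [indicator_union_of_disjoint h]

theorem ph_tl (g : Γ) (A : Set Γ) (n : Γ →₀ ℤ) : ph ((fun h => g * h) '' A) (tl g n) = ph A n := by
  unfold ph
  have e1 : (tl g n).support = n.support.map (Equiv.mulLeft g).toEmbedding := by
    ext k
    rw [mem_supp_tl, Finset.mem_map]
    constructor
    · intro h
      exact ⟨_, h, by simp⟩
    · rintro ⟨h, hh, rfl⟩
      simpa using hh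
  rw [e1, Finset.card_map, Finset.sum_map]
  congr 1
  refine Finset.sum_congr rfl fun k _ => ?_
  by_cases hk : k ∈ A
  · rw [indicator_of_mem hk, indicator_of_mem]
    exact ⟨k, hk, rfl⟩
  · rw [indicator_of_notMem hk, indicator_of_notMem]
    rintro ⟨k', hk', he⟩
    have : k' = k := by simpa using he
    exact hk (this ▸ hk')

/-- Non-amenability gives a gap. -/
theorem gap1 (hΓ : ¬ IsAmenable Γ) : ∃ (S : Finset Γ) (κ : ℝ), 0 < κ ∧
    ∀ p : (Γ →₀ ℤ) → ℝ, (∀ n, 0 ≤ p n) → p 0 = 0 → Summable p →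
      κ * ∑' n, p n ≤ ∑ g ∈ S, ∑' n, |p (tl g n) - p n| := by
  classical
  by_contra hcon
  push Not at hcon
  apply hΓ
  have h1 : ∀ i : Finset Γ × ℕ, ∃ p : (Γ →₀ ℤ) → ℝ, (∀ n, 0 ≤ p n) ∧ p 0 = 0 ∧ Summable p ∧
      ∑ g ∈ i.1, ∑' n, |p (tl g n) - p n| < 1 / ((i.2 : ℝ) + 1) * ∑' n, p n :=
    fun i => hcon i.1 _ (by positivity)
  choose p hp0 hpz hps hp using h1
  have hpos : ∀ i, 0 < ∑' n, p i n := by
    intro i
    have h2 : 0 ≤ ∑ g ∈ i.1, ∑' n, |p i (tl g n) - p i n| :=
      Finset.sum_nonneg fun g _ => tsum_nonneg fun n => abs_nonneg _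
    have h3 := lt_of_le_of_lt h2 (hp i)
    have h4 : (0 : ℝ) < 1 / ((i.2 : ℝ) + 1) := by positivity
    exact (pos_iff_pos_of_mul_pos h3).mp h4
  -- normalisation
  set q : Finset Γ × ℕ → (Γ →₀ ℤ) → ℝ := fun i n => p i n / ∑' n, p i n with hq
  have hq0 : ∀ i n, 0 ≤ q i n := fun i n => div_nonneg (hp0 i n) (hpos i).le
  have hqz : ∀ i, q i 0 = 0 := fun i => by simp [hq, hpz]
  have hqs : ∀ i, Summable (q i) := fun i => (hps i).div_const _
  have hq1 : ∀ i, ∑' n, q i n = 1 := fun i => by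
    rw [hq]
    simp only
    rw [tsum_div_const, div_self (hpos i).ne']
  have hqg : ∀ i, ∀ g ∈ i.1, ∑' n, |q i (tl g n) - q i n| ≤ 1 / ((i.2 : ℝ) + 1) := by
    intro i g hg
    have e : ∀ n, |q i (tl g n) - q i n| = |p i (tl g n) - p i n| / ∑' n, p i n := by
      intro n
      rw [hq]
      simp only
      rw [← sub_div, abs_div, abs_of_pos (hpos i)]
    simp only [e]
    rw [tsum_div_const, div_le_iff₀ (hpos i)]
    refine le_trans ?_ (hp i).le
    exact Finset.single_le_sum (f := fun g => ∑' n, |p i (tl g n) - p i n|)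
      (fun g _ => tsum_nonneg fun n => abs_nonneg _) hg
  -- averages
  set a : Set Γ → Finset Γ × ℕ → ℝ := fun A i => ∑' n, q i n * ph A n with ha
  have hsum : ∀ A i, Summable fun n => q i n * ph A n := fun A i =>
    Summable.of_nonneg_of_le (fun n => mul_nonneg (hq0 i n) (ph_nonneg A n))
      (fun n => mul_le_of_le_one_right (hq0 i n) (ph_le_one A n)) (hqs i)
  have ha0 : ∀ A i, 0 ≤ a A i := fun A i => tsum_nonneg fun n => mul_nonneg (hq0 i n) (ph_nonneg A n)
  have ha1 : ∀ A i, a A i ≤ 1 := fun A i => by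
    rw [← hq1 i]
    exact (hsum A i).tsum_le_tsum (fun n => mul_le_of_le_one_right (hq0 i n) (ph_le_one A n)) (hqs i)
  set U : Ultrafilter (Finset Γ × ℕ) := Ultrafilter.of atTop with hU
  have hUle : (U : Filter (Finset Γ × ℕ)) ≤ atTop := Ultrafilter.of_le _
  have hlim : ∀ A, ∃ x, Tendsto (a A) U (𝓝 x) := by
    intro A
    have h2 : Icc (0 : ℝ) 1 ∈ (U.map (a A) : Ultrafilter ℝ) := by
      rw [Ultrafilter.mem_map]
      exact Filter.univ_mem' fun i => ⟨ha0 A i, ha1 A i⟩
    obtain ⟨x, _, hx⟩ := isCompact_Icc.ultrafilter_le_nhds' _ h2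
    exact ⟨x, hx⟩
  choose m hm using hlim
  refine ⟨m, ?_, ?_, ?_, ?_⟩
  · have h2 : a univ = fun _ => 1 := by
      funext i
      rw [← hq1 i]
      refine tsum_congr fun n => ?_
      by_cases hn : n = 0
      · rw [hn, hqz, zero_mul]
      · rw [ph_univ hn, mul_one]
    have h3 := hm univ
    rw [h2] at h3
    exact (tendsto_nhds_unique h3 tendsto_const_nhds)
  · intro A
    exact ge_of_tendsto (hm A) (Eventually.of_forall fun i => ha0 A i)
  · intro A B hAB
    have h2 : a (A ∪ B) = fun i => a A i + a B i := by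
      funext i
      rw [ha]
      simp only
      rw [← (hsum A i).tsum_add (hsum B i)]
      refine tsum_congr fun n => ?_
      rw [ph_union hAB, mul_add]
    have h3 := hm (A ∪ B)
    rw [h2] at h3
    exact tendsto_nhds_unique h3 ((hm A).add (hm B))
  · intro g A
    have h2 : ∀ i, a ((fun h => g * h) '' A) i = ∑' n, q i (tl g n) * ph A n := by
      intro i
      rw [ha]
      simp only
      rw [← (tlE g).tsum_eq]
      refine tsum_congr fun n => ?_
      show q i (tl g n) * ph _ (tl g n) = _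
      rw [ph_tl]
    have hs2 : ∀ i, Summable fun n => q i (tl g n) := fun i => (tlE g).summable_iff.mpr (hqs i)
    have hs3 : ∀ i, Summable fun n => q i (tl g n) * ph A n := fun i =>
      Summable.of_nonneg_of_le (fun n => mul_nonneg (hq0 i _) (ph_nonneg A n))
        (fun n => mul_le_of_le_one_right (hq0 i _) (ph_le_one A n)) (hs2 i)
    have h3 : ∀ i, |a ((fun h => g * h) '' A) i - a A i| ≤ ∑' n, |q i (tl g n) - q i n| := by
      intro i
      rw [h2, ha]
      simp only
      rw [← (hs3 i).tsum_sub (hsum A i), ← Real.norm_eq_abs]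
      have hs4 : Summable fun n => |q i (tl g n) - q i n| := ((hs2 i).sub (hqs i)).abs
      refine tsum_of_norm_bounded hs4.hasSum fun n => ?_
      rw [← sub_mul, Real.norm_eq_abs, abs_mul, abs_of_nonneg (ph_nonneg A n)]
      exact mul_le_of_le_one_right (abs_nonneg _) (ph_le_one A n)
    have h4 : Tendsto (fun i => a ((fun h => g * h) '' A) i - a A i) U (𝓝 0) := by
      have h5 : Tendsto (fun i : Finset Γ × ℕ => 1 / ((i.2 : ℝ) + 1)) atTop (𝓝 0) := by
        have : Tendsto (fun i : Finset Γ × ℕ => i.2) atTop atTop := by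
          rw [← prod_atTop_atTop_eq]
          exact tendsto_snd
        exact tendsto_one_div_add_atTop_nhds_zero_nat.comp this
      refine squeeze_zero_norm' ?_ (h5.mono_left hUle)
      have h6 : ∀ᶠ i : Finset Γ × ℕ in atTop, g ∈ i.1 := by
        filter_upwards [eventually_ge_atTop (({g} : Finset Γ), 0)] with i hi
        exact hi.1 (Finset.mem_singleton_self g)
      filter_upwards [hUle h6] with i hi
      rw [Real.norm_eq_abs]
      exact (h3 i).trans (hqg i g hi)
    have h7 := (hm ((fun h => g * h) '' A)).sub (hm A)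
    have := tendsto_nhds_unique h7 h4
    linarith

end Pool.Agent.W740.WC
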