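import Pool.Agent.W740.WC.Defs

set_option autoImplicit false
set_option linter.unusedSectionVars false

open MeasureTheory Set Filter Topology
open scoped ComplexConjugate

namespace Pool.Agent.W740.WC

variable (Γ : Type) [Group Γ] [Countable Γ]

/-- The compact group of circle valued functions on `Γ`. -/
abbrev KK : Type := Γ → UnitAddCircle

/-- normalised Haar measure -/
noncomputable def hK : Measure (KK Γ) := Measure.addHaarMeasure ⊤

instance : (hK Γ).IsAddHaarMeasure := by unfold hK; infer_instance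

instance : IsProbabilityMeasure (hK Γ) := ⟨by
  unfold hK
  have := Measure.addHaarMeasure_self (G := KK Γ) (K₀ := ⊤)
  simpa using this⟩

instance : IsProbabilityMeasure (volume : Measure UnitAddCircle) := ⟨UnitAddCircle.measure_univ⟩

theorem circle_singleton (c : UnitAddCircle) : (volume : Measure UnitAddCircle) {c} = 0 := by
  have h := AddCircle.volume_closedBall 1 (x := c) 0
  rw [Metric.closedBall_zero] at h
  rw [h]
  simp

variable {Γ}

/-- the shift -/
def sh (g : Γ) (x : KK Γ) : KK Γ := fun h => x (g⁻¹ * h)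

theorem sh_one (x : KK Γ) : sh 1 x = x := by
  funext h
  simp [sh]

theorem sh_mul (g h : Γ) (x : KK Γ) : sh (g * h) x = sh g (sh h x) := by
  funext k
  simp [sh, mul_assoc]

theorem continuous_sh (g : Γ) : Continuous (sh g : KK Γ → KK Γ) :=
  continuous_pi fun h => continuous_apply (g⁻¹ * h)

theorem mp_sh (g : Γ) : MeasurePreserving (sh g) (hK Γ) (hK Γ) := by
  let f : KK Γ →+ KK Γ :=
    { toFun := sh g
      map_zero' := rfl
      map_add' := fun _ _ => rfl }
  have hs : Function.Surjective f := fun x => ⟨sh g⁻¹ x, by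
    show sh g (sh g⁻¹ x) = x
    rw [← sh_mul, mul_inv_cancel, sh_one]⟩
  exact f.measurePreserving (continuous_sh g) hs rfl

/-- almost every point is moved -/
theorem sh_free (g : Γ) (hg : g ≠ 1) : ∀ᵐ x ∂(hK Γ), sh g x ≠ x := by
  classical
  let f : KK Γ →+ UnitAddCircle :=
    { toFun := fun x => x g⁻¹ - x 1
      map_zero' := by simp
      map_add' := fun x y => by simp only [Pi.add_apply]; abel }
  have hc : Continuous f := (continuous_apply g⁻¹).sub (continuous_apply 1)
  have hs : Function.Surjective f := fun c => ⟨Function.update 0 g⁻¹ c, by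
    show (Function.update (0 : KK Γ) g⁻¹ c) g⁻¹ - (Function.update (0 : KK Γ) g⁻¹ c) 1 = c
    have h1 : (1 : Γ) ≠ g⁻¹ := fun h => hg (by rw [← inv_inv g, ← h, inv_one])
    rw [Function.update_self, Function.update_of_ne h1]
    simp⟩
  have hmp : MeasurePreserving f (hK Γ) volume :=
    f.measurePreserving hc hs (by rw [measure_univ, measure_univ])
  have h0 : hK Γ (f ⁻¹' {0}) = 0 := by
    rw [hmp.measure_preimage (measurableSet_singleton 0).nullMeasurableSet]
    exact circle_singleton 0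
  rw [ae_iff]
  refine measure_mono_null ?_ h0
  intro x hx
  simp only [not_not, mem_ofPred_eq] at hx
  have := congrFun hx 1
  simp only [sh, mul_one] at this
  show x g⁻¹ - x 1 ∈ ({0} : Set UnitAddCircle)
  rw [this, sub_self]
  rfl

theorem nullSingleton : ∀ x : KK Γ, hK Γ {x} = 0 := by
  intro x
  let f : KK Γ →+ UnitAddCircle :=
    { toFun := fun x => x 1
      map_zero' := rfl
      map_add' := fun x y => rfl }
  have hc : Continuous f := continuous_apply 1
  have hs : Function.Surjective f := fun c => ⟨fun _ => c, rfl⟩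
  have hmp : MeasurePreserving f (hK Γ) volume :=
    f.measurePreserving hc hs (by rw [measure_univ, measure_univ])
  have h0 : hK Γ (f ⁻¹' {f x}) = 0 := by
    rw [hmp.measure_preimage (measurableSet_singleton _).nullMeasurableSet]
    exact circle_singleton _
  refine measure_mono_null ?_ h0
  rintro _ rfl
  rfl

/-- The characters of `KK Γ`. -/
noncomputable def chr (n : Γ →₀ ℤ) : C(KK Γ, ℂ) :=
  ⟨fun x => n.prod fun h k => fourier k (x h), by
    refine continuous_finsetProd _ fun h _ => ?_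
    exact (fourier _).continuous.comp (continuous_apply h)⟩

theorem chr_apply (n : Γ →₀ ℤ) (x : KK Γ) : chr n x = n.prod fun h k => fourier k (x h) := rfl

theorem chr_zero : (chr 0 : C(KK Γ, ℂ)) = 1 := by
  ext x
  simp [chr_apply]

theorem chr_add (n m : Γ →₀ ℤ) : (chr (n + m) : C(KK Γ, ℂ)) = chr n * chr m := by
  classical
  ext x
  rw [ContinuousMap.mul_apply, chr_apply, chr_apply, chr_apply, Finsupp.prod_add_index']
  · intro h
    exact fourier_zero
  · intro h a b
    exact fourier_add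

theorem chr_neg (n : Γ →₀ ℤ) : (chr (-n) : C(KK Γ, ℂ)) = star (chr n) := by
  ext x
  rw [ContinuousMap.star_apply, chr_apply, chr_apply, Finsupp.prod_neg_index]
  · rw [Finsupp.prod, Finsupp.prod]
    rw [show star (∏ a ∈ n.support, fourier (n a) (x a) : ℂ) =
      ∏ a ∈ n.support, star (fourier (n a) (x a) : ℂ) from map_prod (starRingEnd ℂ) _ _]
    refine Finset.prod_congr rfl fun a _ => ?_
    exact fourier_neg
  · intro h
    exact fourier_zero

theorem norm_chr (n : Γ →₀ ℤ) (x : KK Γ) : ‖chr n x‖ = 1 := by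
  rw [chr_apply, Finsupp.prod, norm_prod]
  refine Finset.prod_eq_one fun a _ => ?_
  rw [fourier_apply]
  exact Circle.norm_coe _

theorem integral_chr {n : Γ →₀ ℤ} (hn : n ≠ 0) : ∫ x, chr n x ∂(hK Γ) = 0 := by
  classical
  obtain ⟨h, hh⟩ : ∃ h, n h ≠ 0 := by
    by_contra hcon
    push Not at hcon
    exact hn (Finsupp.ext hcon)
  set v : KK Γ := Pi.single h (((1 : ℝ) / 2 / n h : ℝ) : UnitAddCircle) with hv
  refine integral_eq_zero_of_add_right_eq_neg (μ := hK Γ) (g := v) fun x => ?_
  rw [chr_apply, chr_apply, Finsupp.prod, Finsupp.prod]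
  have hmem : h ∈ n.support := Finsupp.mem_support_iff.mpr hh
  rw [← Finset.mul_prod_erase _ _ hmem, ← Finset.mul_prod_erase _ _ hmem]
  have h1 : (fourier (n h)) ((x + v) h) = -fourier (n h) (x h) := by
    rw [Pi.add_apply, hv, Pi.single_eq_same]
    exact fourier_add_half_inv_index hh one_pos _
  have h2 : ∏ a ∈ n.support.erase h, (fourier (n a)) ((x + v) a) =
      ∏ a ∈ n.support.erase h, (fourier (n a)) (x a) := by
    refine Finset.prod_congr rfl fun a ha => ?_
    rw [Pi.add_apply, hv, Pi.single_eq_of_ne (Finset.ne_of_mem_erase ha), add_zero]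
  rw [h1, h2, neg_mul]

/-- characters as elements of `L²` -/
noncomputable def chrL (n : Γ →₀ ℤ) : Lp ℂ 2 (hK Γ) :=
  ContinuousMap.toLp (E := ℂ) 2 (hK Γ) ℂ (chr n)

theorem orthonormal_chr : Orthonormal ℂ (chrL : (Γ →₀ ℤ) → Lp ℂ 2 (hK Γ)) := by
  classical
  rw [orthonormal_iff_ite]
  intro i j
  unfold chrL
  rw [ContinuousMap.inner_toLp (hK Γ) (chr i) (chr j)]
  have e : ∀ x, chr j x * conj (chr i x) = chr (j + -i) x := by
    intro x
    rw [chr_add, chr_neg]
    rfl
  simp_rw [e]
  split_ifs with h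
  · subst h
    simp [chr_zero]
  · refine integral_chr ?_
    intro h0
    apply h
    rw [add_neg_eq_zero] at h0
    exact h0.symm

/-- the star subalgebra spanned by the characters -/
noncomputable def chrAlg (Γ : Type) [Group Γ] [Countable Γ] : StarSubalgebra ℂ C(KK Γ, ℂ) where
  toSubalgebra := Algebra.adjoin ℂ (range chr)
  star_mem' := by
    change Algebra.adjoin ℂ (range chr) ≤ star (Algebra.adjoin ℂ (range chr))
    refine Algebra.adjoin_le ?_
    rintro - ⟨n, rfl⟩
    refine Algebra.subset_adjoin ⟨-n, ?_⟩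
    exact chr_neg n

theorem chrAlg_coe : Subalgebra.toSubmodule (chrAlg Γ).toSubalgebra =
    Submodule.span ℂ (range (chr : (Γ →₀ ℤ) → C(KK Γ, ℂ))) := by
  apply Algebra.adjoin_eq_span_of_subset
  refine Subset.trans ?_ Submodule.subset_span
  intro x hx
  refine Submonoid.closure_induction (fun _ => id) ⟨0, chr_zero⟩ ?_ hx
  rintro - - - - ⟨m, rfl⟩ ⟨n, rfl⟩
  exact ⟨m + n, chr_add m n⟩

theorem chrAlg_sep : (chrAlg Γ).SeparatesPoints := by
  classical
  intro x y hxy
  obtain ⟨h, hh⟩ := Function.ne_iff.mp hxy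
  refine ⟨_, ⟨chr (Finsupp.single h 1), Algebra.subset_adjoin ⟨_, rfl⟩, rfl⟩, ?_⟩
  show chr _ x ≠ chr _ y
  rw [chr_apply, chr_apply, Finsupp.prod_single_index, Finsupp.prod_single_index]
  · rw [fourier_one, fourier_one]
    contrapose hh
    exact AddCircle.injective_toCircle one_ne_zero (Circle.ext hh)
  · exact fourier_zero
  · exact fourier_zero

theorem span_chrL : (Submodule.span ℂ (range (chrL : (Γ →₀ ℤ) → Lp ℂ 2 (hK Γ)))).topologicalClosure
    = ⊤ := by
  have h1 : (Submodule.span ℂ (range (chr : (Γ →₀ ℤ) → C(KK Γ, ℂ)))).topologicalClosure = ⊤ := by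
    rw [← chrAlg_coe]
    exact congr_arg (Subalgebra.toSubmodule <| StarSubalgebra.toSubalgebra ·)
      (ContinuousMap.starSubalgebra_topologicalClosure_eq_top_of_separatesPoints _ chrAlg_sep)
  convert!
    (ContinuousMap.toLp_denseRange ℂ (hK Γ) ℂ (by simp : (2 : ENNReal) ≠ ⊤)).topologicalClosure_map_submodule
      h1
  rw [Submodule.map_span]
  unfold chrL
  rw [range_comp']
  simp only [ContinuousLinearMap.coe_coe]

/-- The Hilbert basis of characters. -/
noncomputable def basisK : HilbertBasis (Γ →₀ ℤ) ℂ (Lp ℂ 2 (hK Γ)) :=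
  HilbertBasis.mk orthonormal_chr span_chrL.ge

/-- Fourier coefficients -/
noncomputable def fc (f : KK Γ → ℂ) (n : Γ →₀ ℤ) : ℂ := ∫ x, conj (chr n x) * f x ∂(hK Γ)

theorem basisK_repr (f : Lp ℂ 2 (hK Γ)) (n : Γ →₀ ℤ) : basisK.repr f n = fc f n := by
  trans ∫ t, conj ((chrL n : KK Γ → ℂ) t) * f t ∂(hK Γ)
  · rw [basisK.repr_apply_apply f n, MeasureTheory.L2.inner_def]
    have : (basisK : (Γ →₀ ℤ) → Lp ℂ 2 (hK Γ)) = chrL := HilbertBasis.coe_mk _ _
    rw [this]
    simp only [RCLike.inner_apply']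
  · apply integral_congr_ae
    filter_upwards [ContinuousMap.coeFn_toLp (p := 2) (𝕜 := ℂ) (hK Γ) (chr n)] with _ ht
    unfold chrL
    rw [ht]

theorem hasSum_sq_fc (f : Lp ℂ 2 (hK Γ)) :
    HasSum (fun i => ‖fc f i‖ ^ 2) (∫ t, ‖f t‖ ^ 2 ∂(hK Γ)) := by
  simp_rw [← basisK_repr]
  have H₁ : HasSum (fun i => ‖basisK.repr f i‖ ^ 2) (‖basisK.repr f‖ ^ 2) := by
    apply_mod_cast lp.hasSum_norm ?_ (basisK.repr f)
    simp
  have H₂ : ‖basisK.repr f‖ ^ 2 = ‖f‖ ^ 2 := by simp
  have H₃ := congr_arg RCLike.re (@L2.inner_def (KK Γ) ℂ ℂ _ _ _ _ _ f f)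
  rw [← integral_re] at H₃
  · simp only [← norm_sq_eq_re_inner] at H₃
    rwa [H₂, H₃] at H₁
  · exact L2.integrable_inner f f

theorem hasSum_sq_fc' (f : KK Γ → ℂ) (hf : MemLp f 2 (hK Γ)) :
    HasSum (fun i => ‖fc f i‖ ^ 2) (∫ t, ‖f t‖ ^ 2 ∂(hK Γ)) := by
  have h := hasSum_sq_fc hf.toLp
  have e1 : ∀ i, fc hf.toLp i = fc f i := by
    intro i
    apply integral_congr_ae
    filter_upwards [hf.coeFn_toLp] with x hx
    rw [hx]
  have e2 : ∫ t, ‖hf.toLp f t‖ ^ 2 ∂(hK Γ) = ∫ t, ‖f t‖ ^ 2 ∂(hK Γ) := by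
    apply integral_congr_ae
    filter_upwards [hf.coeFn_toLp] with x hx
    rw [hx]
  rw [e2] at h
  simpa only [e1] using h

end Pool.Agent.W740.WC
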