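import Pool.Agent.W740.WC.Gap

set_option autoImplicit false
set_option linter.unusedSectionVars false

open MeasureTheory Set Filter Topology
open scoped ComplexConjugate

namespace Pool.Agent.W740.WC

variable {Γ : Type} [Group Γ] [Countable Γ]

/-- the shift as a homeomorphism -/
def shH (g : Γ) : KK Γ ≃ₜ KK Γ where
  toFun := sh g
  invFun := sh g⁻¹
  left_inv x := by rw [← sh_mul, inv_mul_cancel, sh_one]
  right_inv x := by rw [← sh_mul, mul_inv_cancel, sh_one]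
  continuous_toFun := continuous_sh g
  continuous_invFun := continuous_sh g⁻¹

theorem integral_sh (g : Γ) (F : KK Γ → ℂ) : ∫ x, F (sh g x) ∂(hK Γ) = ∫ x, F x ∂(hK Γ) :=
  (mp_sh g).integral_comp (shH g).measurableEmbedding F

theorem chr_tl (g : Γ) (n : Γ →₀ ℤ) (x : KK Γ) : chr (tl g n) (sh g x) = chr n x := by
  rw [chr_apply, chr_apply]
  unfold tl
  rw [Finsupp.equivMapDomain_eq_mapDomain, Finsupp.prod_mapDomain_index_inj
    (Equiv.mulLeft g).injective]
  refine Finsupp.prod_congr fun h _ => ?_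
  simp [sh]

theorem fc_tl (f : KK Γ → ℂ) (g : Γ) (n : Γ →₀ ℤ) : fc f (tl g n) = fc (fun x => f (sh g x)) n := by
  unfold fc
  rw [← integral_sh g]
  simp only [chr_tl]

theorem integrable_chr_mul (n : Γ →₀ ℤ) (f : KK Γ → ℂ) (hf : MemLp f 2 (hK Γ)) :
    Integrable (fun x => conj (chr n x) * f x) (hK Γ) := by
  refine Integrable.bdd_mul (c := 1) (hf.integrable (by norm_num)) ?_ ?_
  · exact (Complex.continuous_conj.comp (chr n).continuous).aestronglyMeasurable
  · refine Eventually.of_forall fun x => ?_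
    rw [RCLike.norm_conj, norm_chr]

theorem fc_sub (n : Γ →₀ ℤ) (f₁ f₂ : KK Γ → ℂ) (h₁ : MemLp f₁ 2 (hK Γ)) (h₂ : MemLp f₂ 2 (hK Γ)) :
    fc (fun x => f₁ x - f₂ x) n = fc f₁ n - fc f₂ n := by
  unfold fc
  rw [← integral_sub (integrable_chr_mul n f₁ h₁) (integrable_chr_mul n f₂ h₂)]
  simp only [mul_sub]

theorem fc_zero (f : KK Γ → ℂ) : fc f 0 = ∫ x, f x ∂(hK Γ) := by
  unfold fc
  simp [chr_zero]

theorem norm_sq_diff (a b : ℂ) {l : ℝ} (hl : 0 < l) :
    |‖a‖ ^ 2 - ‖b‖ ^ 2| ≤ 1 / (2 * l) * ‖a - b‖ ^ 2 + l * (‖a‖ ^ 2 + ‖b‖ ^ 2) := by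
  have h1 : |‖a‖ ^ 2 - ‖b‖ ^ 2| ≤ ‖a - b‖ * (‖a‖ + ‖b‖) := by
    have e : ‖a‖ ^ 2 - ‖b‖ ^ 2 = (‖a‖ - ‖b‖) * (‖a‖ + ‖b‖) := by ring
    rw [e, abs_mul, abs_of_nonneg (by positivity : 0 ≤ ‖a‖ + ‖b‖)]
    exact mul_le_mul_of_nonneg_right (abs_norm_sub_norm_le a b) (by positivity)
  set u := ‖a - b‖
  set x := ‖a‖
  set y := ‖b‖
  have h2 : u * (x + y) ≤ 1 / (2 * l) * u ^ 2 + l / 2 * (x + y) ^ 2 := by
    have : 0 ≤ (u - l * (x + y)) ^ 2 / (2 * l) := by positivity
    have e : (u - l * (x + y)) ^ 2 / (2 * l) =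
        1 / (2 * l) * u ^ 2 + l / 2 * (x + y) ^ 2 - u * (x + y) := by
      field_simp
      ring
    linarith
  have h3 : (x + y) ^ 2 ≤ 2 * (x ^ 2 + y ^ 2) := by nlinarith [sq_nonneg (x - y)]
  nlinarith

/-- Spectral gap. -/
theorem gap2 (hΓ : ¬ IsAmenable Γ) : ∃ (S : Finset Γ) (C : ℝ), 0 ≤ C ∧
    ∀ f : KK Γ → ℂ, MemLp f 2 (hK Γ) → ∫ x, f x ∂(hK Γ) = 0 →
      ∫ x, ‖f x‖ ^ 2 ∂(hK Γ) ≤ C * ∑ g ∈ S, ∫ x, ‖f (sh g x) - f x‖ ^ 2 ∂(hK Γ) := by
  obtain ⟨S, κ, hκ, h⟩ := gap1 hΓ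
  set l : ℝ := κ / (4 * (S.card + 1)) with hl
  have hl0 : 0 < l := by positivity
  refine ⟨S, 2 / κ * (1 / (2 * l)), by positivity, fun f hf hf0 => ?_⟩
  have hP := hasSum_sq_fc' f hf
  set P : (Γ →₀ ℤ) → ℝ := fun n => ‖fc f n‖ ^ 2 with hPdef
  have h0 : P 0 = 0 := by
    rw [hPdef]
    simp only
    rw [fc_zero, hf0]
    simp
  have h1 := h P (fun n => sq_nonneg _) h0 hP.summable
  rw [hP.tsum_eq] at h1
  set I := ∫ x, ‖f x‖ ^ 2 ∂(hK Γ) with hI
  have hI0 : 0 ≤ I := integral_nonneg fun x => sq_nonneg _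
  have h2 : ∀ g ∈ S, ∑' n, |P (tl g n) - P n| ≤
      1 / (2 * l) * (∫ x, ‖f (sh g x) - f x‖ ^ 2 ∂(hK Γ)) + 2 * l * I := by
    intro g _
    have hfg : MemLp (fun x => f (sh g x)) 2 (hK Γ) := hf.comp_measurePreserving (mp_sh g)
    have hd : MemLp (fun x => f (sh g x) - f x) 2 (hK Γ) := hfg.sub hf
    have hs1 := hasSum_sq_fc' _ hd
    have hs2 := hasSum_sq_fc' _ hfg
    have e1 : ∫ x, ‖f (sh g x)‖ ^ 2 ∂(hK Γ) = I :=
      (mp_sh g).integral_comp (shH g).measurableEmbedding (fun x => ‖f x‖ ^ 2)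
    rw [e1] at hs2
    have hs3 := (hs1.mul_left (1 / (2 * l))).add ((hs2.add hP).mul_left l)
    have e2 : 1 / (2 * l) * (∫ x, ‖f (sh g x) - f x‖ ^ 2 ∂(hK Γ)) + l * (I + I) =
        1 / (2 * l) * (∫ x, ‖f (sh g x) - f x‖ ^ 2 ∂(hK Γ)) + 2 * l * I := by ring
    rw [e2] at hs3
    have hb : ∀ n, |P (tl g n) - P n| ≤ 1 / (2 * l) * ‖fc (fun x => f (sh g x) - f x) n‖ ^ 2 +
        l * (‖fc (fun x => f (sh g x)) n‖ ^ 2 + P n) := by
      intro n
      rw [hPdef]
      simp only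
      rw [fc_tl, fc_sub n _ _ hfg hf]
      exact norm_sq_diff _ _ hl0
    have hs4 : Summable fun n => |P (tl g n) - P n| :=
      Summable.of_nonneg_of_le (fun n => abs_nonneg _) hb hs3.summable
    calc _ ≤ _ := hs4.tsum_le_tsum hb hs3.summable
      _ = _ := hs3.tsum_eq
  have h3 : κ * I ≤ 1 / (2 * l) * (∑ g ∈ S, ∫ x, ‖f (sh g x) - f x‖ ^ 2 ∂(hK Γ)) +
      S.card * (2 * l * I) := by
    refine h1.trans ((Finset.sum_le_sum h2).trans ?_)
    rw [Finset.sum_add_distrib, Finset.sum_const, nsmul_eq_mul, Finset.mul_sum]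
  have h4 : (S.card : ℝ) * (2 * l * I) ≤ κ / 2 * I := by
    have h5 : (S.card : ℝ) * (2 * l) ≤ κ / 2 := by
      rw [hl]
      rw [show (S.card : ℝ) * (2 * (κ / (4 * (S.card + 1)))) = κ / 2 * (S.card / (S.card + 1)) by
        field_simp; ring]
      have : (S.card : ℝ) / (S.card + 1) ≤ 1 := by
        rw [div_le_one (by positivity)]
        linarith
      nlinarith
    nlinarith
  have h5 : κ / 2 * I ≤ 1 / (2 * l) * (∑ g ∈ S, ∫ x, ‖f (sh g x) - f x‖ ^ 2 ∂(hK Γ)) := by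
    linarith
  calc I = 2 / κ * (κ / 2 * I) := by field_simp
    _ ≤ 2 / κ * (1 / (2 * l) * (∑ g ∈ S, ∫ x, ‖f (sh g x) - f x‖ ^ 2 ∂(hK Γ))) :=
        mul_le_mul_of_nonneg_left h5 (by positivity)
    _ = _ := by ring

/-- Strong ergodicity. -/
theorem strong_erg (hΓ : ¬ IsAmenable Γ) : ∃ (S : Finset Γ) (C : ℝ), 0 ≤ C ∧
    ∀ B : Set (KK Γ), MeasurableSet B → (hK Γ).real B * (1 - (hK Γ).real B) ≤
      C * ∑ g ∈ S, ((hK Γ).real B - (hK Γ).real (sh g '' B ∩ B)) := by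
  classical
  obtain ⟨S, C, hC, h⟩ := gap2 hΓ
  refine ⟨S.image fun g => g⁻¹, 2 * C, by positivity, fun B hB => ?_⟩
  set b := (hK Γ).real B with hb
  set f : KK Γ → ℂ := fun x => B.indicator (fun _ => (1 : ℂ)) x - (b : ℂ) with hf
  have hfm : MemLp f 2 (hK Γ) := by
    refine (memLp_indicator_const 2 hB 1 (Or.inr (measure_ne_top _ _))).sub (memLp_const _)
  have hi : Integrable (B.indicator (fun _ => (1 : ℂ))) (hK Γ) := (integrable_const 1).indicator hB
  have hf0 : ∫ x, f x ∂(hK Γ) = 0 := by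
    rw [hf, integral_sub hi (integrable_const _), integral_indicator_const _ hB, integral_const]
    simp [hb]
  have h1 := h f hfm hf0
  have e1 : ∫ x, ‖f x‖ ^ 2 ∂(hK Γ) = b * (1 - b) := by
    have e : ∀ x, ‖f x‖ ^ 2 = B.indicator (fun _ => (1 - 2 * b : ℝ)) x + b ^ 2 := by
      intro x
      rw [hf]
      simp only
      by_cases hx : x ∈ B
      · rw [indicator_of_mem hx, indicator_of_mem hx]
        have : ((1 : ℂ) - (b : ℂ)) = ((1 - b : ℝ) : ℂ) := by push_cast; ring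
        rw [this, Complex.norm_real, Real.norm_eq_abs, sq_abs]
        ring
      · rw [indicator_of_notMem hx, indicator_of_notMem hx]
        rw [zero_sub, norm_neg, Complex.norm_real, Real.norm_eq_abs, sq_abs]
        ring
    simp only [e]
    rw [integral_add ((integrable_const _).indicator hB) (integrable_const _),
      integral_indicator_const _ hB, integral_const]
    simp [← hb]
    ring
  have e2 : ∀ g : Γ, ∫ x, ‖f (sh g x) - f x‖ ^ 2 ∂(hK Γ) =
      2 * (b - (hK Γ).real (sh g⁻¹ '' B ∩ B)) := by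
    intro g
    set A : Set (KK Γ) := sh g ⁻¹' B with hA
    have hAm : MeasurableSet A := (continuous_sh g).measurable hB
    have hAb : (hK Γ).real A = b := by
      rw [hb, Measure.real, Measure.real, (mp_sh g).measure_preimage hB.nullMeasurableSet]
    have hAi : sh g⁻¹ '' B = A := by
      ext x
      constructor
      · rintro ⟨y, hy, rfl⟩
        show sh g (sh g⁻¹ y) ∈ B
        rw [← sh_mul, mul_inv_cancel, sh_one]
        exact hy
      · intro hx
        exact ⟨sh g x, hx, by rw [← sh_mul, inv_mul_cancel, sh_one]⟩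
    rw [hAi]
    have e : ∀ x, ‖f (sh g x) - f x‖ ^ 2 = A.indicator (fun _ => (1 : ℝ)) x +
        B.indicator (fun _ => (1 : ℝ)) x - 2 * (A ∩ B).indicator (fun _ => (1 : ℝ)) x := by
      intro x
      rw [hf]
      simp only
      by_cases hxA : x ∈ A <;> by_cases hxB : x ∈ B
      · have hxA' : sh g x ∈ B := hxA
        simp [hxA, hxB, hxA']
        norm_num
      · have hxA' : sh g x ∈ B := hxA
        simp [hxA, hxB, hxA']
      · have hxA' : sh g x ∉ B := hxA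
        have h0 : (-(b : ℂ) - (1 - (b : ℂ))) = -1 := by ring
        simp [hxA, hxB, hxA', h0]
      · have hxA' : sh g x ∉ B := hxA
        simp [hxA, hxB, hxA']
    simp only [e]
    rw [integral_sub, integral_add, integral_const_mul, integral_indicator_const _ hAm,
      integral_indicator_const _ hB, integral_indicator_const _ (hAm.inter hB), hAb]
    · simp [← hb]
      ring
    · exact (integrable_const _).indicator hAm
    · exact (integrable_const _).indicator hB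
    · exact ((integrable_const _).indicator hAm).add ((integrable_const _).indicator hB)
    · exact ((integrable_const _).indicator (hAm.inter hB)).const_mul _
  rw [e1] at h1
  simp only [e2] at h1
  rw [← Finset.mul_sum] at h1
  rw [Finset.sum_image (fun x _ y _ hxy => inv_injective hxy)]
  calc _ ≤ _ := h1
    _ = _ := by ring

end Pool.Agent.W740.WC
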