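import Pool.Agent.W740.WC.Act
import Pool.Agent.Helper212.Iso

set_option autoImplicit false
set_option linter.unusedSectionVars false

open MeasureTheory Set Filter Topology

namespace Pool.Agent.W740.WC

variable {Γ : Type} [Group Γ] [Countable Γ]

section transport

variable {X Y : Type} [MeasurableSpace X] [MeasurableSpace Y] {μ : Measure X} {ν : Measure Y}

/-- transport of an action along an isomorphism -/
noncomputable def transport (e : Y ≃ᵐ X) (he : MeasurePreserving e ν μ) (a : PmpAction Γ Y ν) :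
    PmpAction Γ X μ where
  act g x := e (a.act g (e.symm x))
  act_one x := by rw [a.act_one, e.apply_symm_apply]
  act_mul g h x := by rw [a.act_mul, e.symm_apply_apply]
  mp g := he.comp ((a.mp g).comp (he.symm e))

theorem transport_free (e : Y ≃ᵐ X) (he : MeasurePreserving e ν μ) (a : PmpAction Γ Y ν)
    (ha : IsFree a) : IsFree (transport e he a) := by
  intro g hg
  have h := ha g hg
  rw [ae_iff] at h ⊢
  have h1 : {x | ¬ (transport e he a).act g x ≠ x} = e.symm ⁻¹' {y | ¬ a.act g y ≠ y} := by
    ext x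
    simp only [not_not, mem_ofPred_eq, mem_preimage]
    show e (a.act g (e.symm x)) = x ↔ _
    constructor
    · intro hx
      conv_rhs => rw [← hx]
      rw [e.symm_apply_apply]
    · intro hx
      rw [hx, e.apply_symm_apply]
  rw [h1, (he.symm e).measure_preimage_equiv]
  exact h

theorem real_image (e : Y ≃ᵐ X) (he : MeasurePreserving e ν μ) (B : Set Y) :
    μ.real (e '' B) = ν.real B := by
  rw [Measure.real, Measure.real, ← he.measure_preimage_equiv, e.injective.preimage_image]

theorem transport_spec (e : Y ≃ᵐ X) (he : MeasurePreserving e ν μ) (a : PmpAction Γ Y ν) {t : ℝ}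
    (ha : Spec t a) : Spec t (transport e he a) := by
  obtain ⟨⟨A, hA, hAt, hAi⟩, S, K, hK, h⟩ := ha
  have himg : ∀ (g : Γ) (B : Set Y), (transport e he a).act g '' (e '' B) = e '' (a.act g '' B) := by
    intro g B
    rw [image_image, image_image]
    refine image_congr fun y _ => ?_
    show e (a.act g (e.symm (e y))) = _
    rw [e.symm_apply_apply]
  refine ⟨⟨e '' A, e.measurableSet_image.2 hA, by rw [real_image e he, hAt], fun g => ?_⟩,
    S, K, hK, fun B hB => ?_⟩
  · rw [himg, hAi]
  · obtain ⟨B', hB', rfl⟩ : ∃ B' : Set Y, MeasurableSet B' ∧ e '' B' = B :=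
      ⟨e ⁻¹' B, e.measurable hB, by rw [image_preimage_eq _ e.surjective]⟩
    obtain ⟨v, hv, hv2⟩ := h B' hB'
    refine ⟨v, hv, ?_⟩
    rw [real_image e he]
    refine hv2.trans (le_of_eq ?_)
    congr 1
    refine Finset.sum_congr rfl fun g _ => ?_
    rw [himg, ← image_inter e.injective, real_image e he]

end transport

section incomparable

variable {X : Type} [MeasurableSpace X] {μ : Measure X}

theorem wc_refl (a : PmpAction Γ X μ) : WeaklyContained a a := by
  intro F ε hε n A hA
  refine ⟨A, hA, fun g _ i j => ?_⟩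
  rw [sub_self, abs_zero]
  exact hε

theorem not_wc {s t : ℝ} (hs0 : 0 < s) (hs : s < 1 / 2) (ht0 : 0 < t) (ht : t < 1 / 2)
    (hst : s ≠ t) (a b : PmpAction Γ X μ) (ha : Spec s a) (hb : Spec t b) :
    ¬ WeaklyContained a b := by
  classical
  intro hw
  obtain ⟨⟨A, hA, hAs, hAi⟩, -⟩ := ha
  obtain ⟨-, S, K, hK, h⟩ := hb
  -- distance from `s` to the four values
  obtain ⟨d, hd, hdv⟩ : ∃ d : ℝ, 0 < d ∧ ∀ v : ℝ, (v = 0 ∨ v = t ∨ v = 1 - t ∨ v = 1) →
      d ≤ |s - v| := by
    refine ⟨min (min |s - 0| |s - t|) (min |s - (1 - t)| |s - 1|), ?_, ?_⟩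
    · refine lt_min (lt_min ?_ ?_) (lt_min ?_ ?_)
      · exact abs_pos.2 (by linarith)
      · exact abs_pos.2 (sub_ne_zero.2 hst)
      · exact abs_pos.2 (by intro h; linarith)
      · exact abs_pos.2 (by intro h; linarith)
    · rintro v (rfl | rfl | rfl | rfl)
      · exact (min_le_left _ _).trans (min_le_left _ _)
      · exact (min_le_left _ _).trans (min_le_right _ _)
      · exact (min_le_right _ _).trans (min_le_left _ _)
      · exact (min_le_right _ _).trans (min_le_right _ _)
  set M : ℝ := 2 * K * S.card + 1 with hM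
  have hM1 : 0 < M := by positivity
  set ε : ℝ := d / (2 * M) with hε
  have hε0 : 0 < ε := by positivity
  obtain ⟨B, hB, hBF⟩ := hw (insert 1 S) ε hε0 1 (fun _ => A) (fun _ => hA)
  have h1 : |s - μ.real (B 0)| < ε := by
    have := hBF 1 (Finset.mem_insert_self _ _) 0 0
    rw [hAi, inter_self, hAs] at this
    have e : b.act 1 '' B 0 = B 0 := by
      have : b.act 1 = id := funext fun x => b.act_one x
      rw [this, image_id]
    rwa [e, inter_self] at this
  have h2 : ∀ g ∈ S, μ.real (B 0) - μ.real (b.act g '' B 0 ∩ B 0) ≤ 2 * ε := by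
    intro g hg
    have := hBF g (Finset.mem_insert_of_mem hg) 0 0
    rw [hAi, inter_self, hAs] at this
    rw [abs_lt] at this h1
    linarith
  obtain ⟨v, hv, hvB⟩ := h (B 0) (hB 0)
  have h3 : ∑ g ∈ S, (μ.real (B 0) - μ.real (b.act g '' B 0 ∩ B 0)) ≤ S.card * (2 * ε) := by
    refine (Finset.sum_le_sum h2).trans ?_
    rw [Finset.sum_const, nsmul_eq_mul]
  have h4 : |s - v| < ε + K * (S.card * (2 * ε)) := by
    calc |s - v| = |(s - μ.real (B 0)) + (μ.real (B 0) - v)| := by ring_nf
      _ ≤ |s - μ.real (B 0)| + |μ.real (B 0) - v| := abs_add_le _ _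
      _ < ε + K * (S.card * (2 * ε)) := by
        refine add_lt_add_of_lt_of_le h1 (hvB.trans ?_)
        exact mul_le_mul_of_nonneg_left h3 hK
  have h5 : ε + K * (S.card * (2 * ε)) = M * ε := by
    rw [hM]; ring
  have h6 : M * ε = d / 2 := by
    rw [hε]; field_simp
  have h7 := hdv v hv
  linarith

end incomparable

section family

variable {X : Type} [MeasurableSpace X] [StandardBorelSpace X] (μ : Measure X)
  [IsProbabilityMeasure μ] [NullSingletonClass μ]

theorem exists_action (hΓ : ¬ IsAmenable Γ) {t : ℝ} (h0 : 0 < t) (h1 : t < 1) :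
    ∃ a : PmpAction Γ X μ, IsFree a ∧ Spec t a := by
  have i1 : IsProbabilityMeasure (nu Γ t) := nu_prob h0.le h1.le
  have i2 : NullSingletonClass (nu Γ t) := ⟨nu_null⟩
  obtain ⟨e1, h1'⟩ := Pool.Agent.Helper212.Sq.exists_mp_equiv μ
  obtain ⟨e2, h2'⟩ := Pool.Agent.Helper212.Sq.exists_mp_equiv (nu Γ t)
  have he : MeasurePreserving (e2.trans e1.symm) (nu Γ t) μ := (h1'.symm e1).comp h2'
  exact ⟨transport (e2.trans e1.symm) he (act0 t), transport_free _ _ _ (act0_free t),
    transport_spec _ _ _ (act0_spec hΓ h0 h1)⟩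

theorem exists_antichain (hΓ : ¬ IsAmenable Γ) :
    ∃ S : Set (PmpAction Γ X μ), IsFreeAntichain S ∧ Cardinal.mk S = Cardinal.continuum := by
  have hex : ∀ t : Ioo (0 : ℝ) (1 / 2), ∃ a : PmpAction Γ X μ, IsFree a ∧ Spec t.1 a := fun t =>
    exists_action μ hΓ t.2.1 (t.2.2.trans (by norm_num))
  choose a ha1 ha2 using hex
  have hne : ∀ s t : Ioo (0 : ℝ) (1 / 2), s ≠ t → ¬ WeaklyContained (a s) (a t) := fun s t hst =>
    not_wc s.2.1 s.2.2 t.2.1 t.2.2 (fun h => hst (Subtype.ext h)) _ _ (ha2 s) (ha2 t)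
  have hinj : Function.Injective a := by
    intro s t hst
    by_contra hc
    refine hne s t hc ?_
    rw [hst]
    exact wc_refl _
  refine ⟨range a, ⟨?_, ?_⟩, ?_⟩
  · rintro _ ⟨s, rfl⟩
    exact ha1 s
  · rintro _ ⟨s, rfl⟩ _ ⟨t, rfl⟩ hst
    have hs : s ≠ t := fun h => hst (by rw [h])
    exact ⟨hne s t hs, hne t s hs.symm⟩
  · rw [Cardinal.mk_range_eq _ hinj]
    exact Cardinal.mk_Ioo_real (by norm_num)

end family

section upper

variable {X : Type} [MeasurableSpace X] [StandardBorelSpace X] (μ : Measure X)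

theorem mk_sets : Cardinal.mk {s : Set X // MeasurableSet s} ≤ Cardinal.continuum := by
  obtain ⟨b, hb, hm⟩ := MeasurableSpace.CountablyGenerated.isCountablyGenerated (α := X)
  have h := MeasurableSpace.cardinal_measurableSet_le_continuum (s := b)
    (Cardinal.le_aleph0_iff_set_countable.2 hb |>.trans Cardinal.aleph0_le_continuum)
  rw [hm]
  exact h

theorem mk_action : Cardinal.mk (PmpAction Γ X μ) ≤ Cardinal.continuum := by
  obtain ⟨F, hF, hFi⟩ := MeasurableSpace.measurable_injection_nat_bool_of_countablySeparated X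
  let Φ : PmpAction Γ X μ → (Γ → ℕ → {s : Set X // MeasurableSet s}) := fun a g n =>
    ⟨{x | F (a.act g x) n = true}, by
      have h1 : Measurable fun x => F (a.act g x) n :=
        (measurable_pi_apply n).comp (hF.comp (a.mp g).measurable)
      exact h1 (measurableSet_singleton true)⟩
  have hΦ : Function.Injective Φ := by
    intro a b hab
    have h1 : a.act = b.act := by
      funext g x
      apply hFi
      funext n
      have h2 := congrArg Subtype.val (congrFun (congrFun hab g) n)
      have h3 : (F (a.act g x) n = true) ↔ (F (b.act g x) n = true) := by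
        have h4 := Set.ext_iff.1 h2 x
        exact h4
      cases ha : F (a.act g x) n <;> cases hb : F (b.act g x) n <;> simp_all
    cases a
    cases b
    cases h1
    rfl
  refine (Cardinal.mk_le_of_injective hΦ).trans ?_
  rw [← Cardinal.power_def, ← Cardinal.power_def]
  calc ((Cardinal.mk {s : Set X // MeasurableSet s}) ^ Cardinal.mk ℕ) ^ Cardinal.mk Γ
      ≤ (Cardinal.continuum ^ Cardinal.mk ℕ) ^ Cardinal.mk Γ :=
        Cardinal.power_le_power_right (Cardinal.power_le_power_right mk_sets)
    _ = Cardinal.continuum ^ Cardinal.mk Γ := by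
        rw [Cardinal.mk_nat, Cardinal.continuum_power_aleph0]
    _ ≤ Cardinal.continuum ^ Cardinal.aleph0 :=
        Cardinal.power_le_power_left Cardinal.continuum_ne_zero (Cardinal.mk_le_aleph0)
    _ = Cardinal.continuum := Cardinal.continuum_power_aleph0

end upper

end Pool.Agent.W740.WC
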